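import Pool.Agent.Q211.BL.Red

/-!
# Strict monotonicity is coanalytic
-/

open MeasureTheory Topology

namespace Pool.Agent.Q211.BL

instance fact_one_ne_top : Fact ((1:ENNReal) ≠ ⊤) := ⟨by simp⟩

/-- Borel structure. -/
noncomputable local instance : MeasurableSpace CC := borel CC
local instance : BorelSpace CC := ⟨rfl⟩
local instance i1 : SecondCountableTopology CC := inferInstance
local instance i2 : OpensMeasurableSpace (CC × CC) := inferInstance
local instance i3 : OpensMeasurableSpace (ℕ → CC) := inferInstance
local instance i4 : SecondCountableTopology (CC × CC) := inferInstance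
local instance i5 : SecondCountableTopology (ℕ → CC) := inferInstance
local instance i6 : OpensMeasurableSpace ((ℕ → CC) × CC × CC) := Prod.opensMeasurableSpace
local instance i7 : PolishSpace CC := inferInstance
local instance i8 : StandardBorelSpace CC := inferInstance
local instance i9 : StandardBorelSpace (CC × CC) := inferInstance
local instance i10 : StandardBorelSpace (ℕ → CC) := inferInstance
local instance i11 : StandardBorelSpace ((ℕ → CC) × CC × CC) := inferInstance

/-- A sequence whose closure is a closed sublattice. -/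
def Good (z : ℕ → CC) : Prop :=
  (∀ n m, z n + z m ∈ closure (Set.range z)) ∧
  (∀ (q : ℚ) (n : ℕ), (q : ℝ) • z n ∈ closure (Set.range z)) ∧
  (∀ n, |z n| ∈ closure (Set.range z))

/-- The sublattice. -/
def Sub (z : ℕ → CC) (h : Good z) : Subl :=
  ⟨{ carrier := closure (Set.range z)
     add_mem' := by
       intro a b ha hb
       have := map_mem_closure₂ continuous_add ha hb (u := closure (Set.range z)) (by
         rintro _ ⟨n, rfl⟩ _ ⟨m, rfl⟩
         exact h.1 n m)
       rwa [closure_closure] at this
     zero_mem' := by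
       have := h.2.1 0 0
       simpa using this
     smul_mem' := by
       intro c x hx
       have h1 : c ∈ closure (Set.range ((↑) : ℚ → ℝ)) := Rat.denseRange_cast c
       have := map_mem_closure₂ (f := fun (c : ℝ) (x : CC) => c • x) continuous_smul h1 hx
         (u := closure (Set.range z)) (by
         rintro _ ⟨q, rfl⟩ _ ⟨m, rfl⟩
         exact h.2.1 q m)
       rwa [closure_closure] at this }, isClosed_closure, by
    intro y hy
    have hy' : y ∈ closure (Set.range z) := hy
    have := map_mem_closure abs_cont' hy' (t := closure (Set.range z)) (by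
      rintro _ ⟨n, rfl⟩
      exact h.2.2 n)
    rw [closure_closure] at this
    exact this⟩

open Classical in
/-- The sublattice coded by a sequence. -/
noncomputable def Phi (z : ℕ → CC) : Subl := if h : Good z then Sub z h else F ∅

theorem Phi_coe {z : ℕ → CC} (h : Good z) : ((Phi z).1 : Set CC) = closure (Set.range z) := by
  unfold Phi
  rw [dif_pos h]
  rfl

theorem meas_cl {X : Type} [TopologicalSpace X] [MeasurableSpace X] [OpensMeasurableSpace X]
    {w : X → CC} (hw : Continuous w) {z : X → ℕ → CC} (hz : Continuous z) :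
    MeasurableSet {p : X | w p ∈ closure (Set.range (z p))} := by
  have : {p : X | w p ∈ closure (Set.range (z p))} =
      ⋂ k : ℕ, ⋃ l : ℕ, {p : X | dist (w p) (z p l) < 1 / ((k:ℝ) + 1)} := by
    ext p
    simp only [Set.mem_setOf_eq, Set.mem_iInter, Set.mem_iUnion]
    exact Metric.mem_closure_range_iff_nat
  rw [this]
  refine MeasurableSet.iInter (fun k => MeasurableSet.iUnion (fun l => ?_))
  refine IsOpen.measurableSet ?_
  exact isOpen_lt (hw.dist ((continuous_apply l).comp hz)) continuous_const

theorem meas_good {X : Type} [TopologicalSpace X] [MeasurableSpace X] [OpensMeasurableSpace X]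
    {z : X → ℕ → CC} (hz : Continuous z) : MeasurableSet {p : X | Good (z p)} := by
  have : {p : X | Good (z p)} =
      (⋂ n : ℕ, ⋂ m : ℕ, {p : X | z p n + z p m ∈ closure (Set.range (z p))}) ∩
      ((⋂ q : ℚ, ⋂ n : ℕ, {p : X | (q : ℝ) • z p n ∈ closure (Set.range (z p))}) ∩
      (⋂ n : ℕ, {p : X | |z p n| ∈ closure (Set.range (z p))})) := by
    ext p
    simp only [Set.mem_setOf_eq, Set.mem_iInter, Set.mem_inter_iff, Good]
  rw [this]
  have hzn : ∀ n, Continuous (fun p => z p n) := fun n => (continuous_apply n).comp hz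
  refine MeasurableSet.inter ?_ (MeasurableSet.inter ?_ ?_)
  · exact MeasurableSet.iInter (fun n => MeasurableSet.iInter (fun m =>
      meas_cl ((hzn n).add (hzn m)) hz))
  · exact MeasurableSet.iInter (fun q => MeasurableSet.iInter (fun n =>
      meas_cl ((hzn n).const_smul (q:ℝ)) hz))
  · exact MeasurableSet.iInter (fun n => meas_cl (abs_cont'.comp (hzn n)) hz)

theorem closed_le {X : Type} [TopologicalSpace X] {f g : X → CC} (hf : Continuous f)
    (hg : Continuous g) : IsClosed {p | f p ≤ g p} := by
  have : {p | f p ≤ g p} = ⋂ t : Delta, {p | f p t ≤ g p t} := by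
    ext p
    simp only [Set.mem_setOf_eq, Set.mem_iInter]
    rfl
  rw [this]
  exact isClosed_iInter (fun t => isClosed_le ((continuous_eval_const t).comp hf)
    ((continuous_eval_const t).comp hg))

/-- The Borel set. -/
def SS : Set ((ℕ → CC) × CC × CC) :=
  {p | Good p.1 ∧ p.2.1 ∈ closure (Set.range p.1) ∧ p.2.2 ∈ closure (Set.range p.1) ∧
    (0 ≤ p.2.2 ∧ p.2.2 ≠ 0) ∧ p.2.2 ≤ p.2.1 ∧ ‖p.2.1‖ ≤ ‖p.2.1 - p.2.2‖}

theorem SS_meas : MeasurableSet SS := by
  have h1 : Continuous (fun p : (ℕ → CC) × CC × CC => p.1) := continuous_fst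
  have h2 : Continuous (fun p : (ℕ → CC) × CC × CC => p.2.1) := continuous_snd.fst
  have h3 : Continuous (fun p : (ℕ → CC) × CC × CC => p.2.2) := continuous_snd.snd
  refine MeasurableSet.inter (meas_good h1) (MeasurableSet.inter (meas_cl h2 h1)
    (MeasurableSet.inter (meas_cl h3 h1) (MeasurableSet.inter (MeasurableSet.inter ?_ ?_)
      (MeasurableSet.inter ?_ ?_))))
  · exact (closed_le continuous_const h3).measurableSet
  · have : IsClosed {p : (ℕ → CC) × CC × CC | p.2.2 = 0} := isClosed_eq h3 continuous_const
    exact this.measurableSet.compl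
  · exact (closed_le h3 h2).measurableSet
  · exact (isClosed_le h2.norm (h2.sub h3).norm).measurableSet

theorem meas_dist (a : CC) :
    Measurable (fun z : ℕ → CC => Metric.infDist a ((Phi z).1 : Set CC)) := by
  classical
  have h1 : (fun z : ℕ → CC => Metric.infDist a ((Phi z).1 : Set CC)) =
      fun z => if Good z then Metric.infDist a (Set.range z) else
        Metric.infDist a ((F ∅).1 : Set CC) := by
    funext z
    by_cases h : Good z
    · rw [if_pos h, Phi_coe h, Metric.infDist_closure]
    · rw [if_neg h]; unfold Phi; rw [dif_neg h]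
  rw [h1]
  refine Measurable.ite (meas_good (X := ℕ → CC) continuous_id) ?_ measurable_const
  refine measurable_of_Iio (fun r => ?_)
  have h2 : (fun z : ℕ → CC => Metric.infDist a (Set.range z)) ⁻¹' Set.Iio r =
      ⋃ k : ℕ, {z : ℕ → CC | dist a (z k) < r} := by
    ext z
    simp only [Set.mem_preimage, Set.mem_Iio, Set.mem_iUnion, Set.mem_setOf_eq]
    rw [Metric.infDist_lt_iff (Set.range_nonempty z)]
    constructor
    · rintro ⟨_, ⟨k, rfl⟩, hk⟩; exact ⟨k, hk⟩
    · rintro ⟨k, hk⟩; exact ⟨_, ⟨k, rfl⟩, hk⟩
  rw [h2]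
  exact MeasurableSet.iUnion (fun k =>
    (isOpen_lt (continuous_const.dist (continuous_apply k)) continuous_const).measurableSet)

theorem exists_seq (G : Subl) : ∃ z : ℕ → CC, closure (Set.range z) = (G.1 : Set CC) := by
  haveI : Nonempty G.1 := ⟨0⟩
  refine ⟨fun n => (TopologicalSpace.denseSeq G.1 n : CC), ?_⟩
  apply Set.Subset.antisymm
  · refine closure_minimal ?_ G.2.1
    rintro _ ⟨n, rfl⟩
    exact (TopologicalSpace.denseSeq G.1 n).2
  · intro x hx
    have h1 : (⟨x, hx⟩ : G.1) ∈ closure (Set.range (TopologicalSpace.denseSeq G.1)) :=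
      TopologicalSpace.denseRange_denseSeq G.1 _
    refine map_mem_closure (f := fun y : G.1 => (y : CC)) continuous_subtype_val h1 ?_
    rintro _ ⟨n, rfl⟩
    exact ⟨n, rfl⟩

theorem coanalytic (α : ℕ → CC) :
    @AnalyticSet Subl (wijsman α) {G | StrictlyMonotone G}ᶜ := by
  letI : TopologicalSpace Subl := wijsman α
  letI : MeasurableSpace Subl := borel Subl
  haveI : BorelSpace Subl := ⟨rfl⟩
  haveI : SecondCountableTopology Subl :=
    TopologicalSpace.secondCountableTopology_induced Subl (ℕ → ℝ) (dists α)
  have hmeas : Measurable (fun p : (ℕ → CC) × CC × CC => Phi p.1) := by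
    have hb : (borel Subl) = MeasurableSpace.comap (dists α) (borel (ℕ → ℝ)) := borel_comap
    have h1 : Measurable (fun p : (ℕ → CC) × CC × CC => dists α (Phi p.1)) := by
      rw [measurable_pi_iff]
      intro n
      exact (meas_dist (α n)).comp measurable_fst
    intro s hs
    have hs2 : MeasurableSet[MeasurableSpace.comap (dists α) (borel (ℕ → ℝ))] s := by
      rw [← hb]; exact hs
    obtain ⟨s', hs', rfl⟩ := hs2
    have hs'' : MeasurableSet s' := by
      rw [BorelSpace.measurable_eq (α := ℕ → ℝ)]; exact hs'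
    exact h1 hs''
  have key := SS_meas.analyticSet_image hmeas
  have heq : (fun p : (ℕ → CC) × CC × CC => Phi p.1) '' SS = {G | StrictlyMonotone G}ᶜ := by
    ext G
    constructor
    · rintro ⟨⟨z, x, y⟩, ⟨hg, hx, hy, ⟨h0, hne⟩, hyx, hn⟩, rfl⟩ hmono
      have hx' : x ∈ (Phi z).1 := by
        rw [← SetLike.mem_coe, Phi_coe hg]; exact hx
      have hy' : y ∈ (Phi z).1 := by
        rw [← SetLike.mem_coe, Phi_coe hg]; exact hy
      have := hmono x hx' y hy' (lt_of_le_of_ne h0 (Ne.symm hne)) hyx
      have hn' : ‖x‖ ≤ ‖x - y‖ := hn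
      linarith
    · intro hG
      have hG' : ¬ StrictlyMonotone G := hG
      unfold StrictlyMonotone at hG'
      push Not at hG'
      obtain ⟨x, hx, y, hy, h0, hyx, hn⟩ := hG'
      obtain ⟨z, hz⟩ := exists_seq G
      have hmem : ∀ n, z n ∈ G.1 := fun n => by
        rw [← SetLike.mem_coe, ← hz]; exact subset_closure ⟨n, rfl⟩
      have hgood : Good z := by
        refine ⟨fun n m => ?_, fun q n => ?_, fun n => ?_⟩
        · rw [hz]; exact G.1.add_mem (hmem n) (hmem m)
        · rw [hz]; exact G.1.smul_mem _ (hmem n)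
        · rw [hz]; exact G.2.2 _ (hmem n)
      refine ⟨(z, x, y), ⟨hgood, ?_, ?_, ⟨h0.le, ne_of_gt h0⟩, hyx, hn⟩, ?_⟩
      · show x ∈ closure (Set.range z)
        rw [hz]; exact hx
      · show y ∈ closure (Set.range z)
        rw [hz]; exact hy
      · apply Subtype.ext
        apply SetLike.coe_injective
        show ((Phi z).1 : Set CC) = (G.1 : Set CC)
        rw [Phi_coe hgood, hz]
  rw [heq] at key
  exact key

end Pool.Agent.Q211.BL
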