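import Pool.Agent.Q211.BL.Dis

/-!
# Finite combinations of the disjoint sequence
-/

open MeasureTheory Topology

namespace Pool.Agent.Q211.BL

variable {ι : Type}

/-- Finite combination. -/
noncomputable def comb (code : ι → ℕ) (s : Finset ι) (a : ι → ℝ) : L1 :=
  ∑ j ∈ s, a j • d (code j)

theorem ind_of_mem {n : ℕ} {r : ℝ} (h : r ∈ I n) : ind n r = (2:ℝ) ^ (n+1) :=
  Set.indicator_of_mem h _

theorem ind_of_notMem {n : ℕ} {r : ℝ} (h : r ∉ I n) : ind n r = 0 :=
  Set.indicator_of_notMem h _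

theorem ind_of_mem_ne {m n : ℕ} {r : ℝ} (h : r ∈ I m) (hn : n ≠ m) : ind n r = 0 :=
  ind_of_notMem (fun h2 => Set.disjoint_left.mp (I_disj hn) h2 h)

theorem ind_sum_mem {code : ι → ℕ} (hc : Function.Injective code) {s : Finset ι} (a : ι → ℝ)
    {k : ι} (hk : k ∈ s) {r : ℝ} (hr : r ∈ I (code k)) :
    ∑ j ∈ s, a j * ind (code j) r = a k * (2:ℝ) ^ (code k + 1) := by
  rw [Finset.sum_eq_single k]
  · rw [ind_of_mem hr]
  · intro j _ hj
    rw [ind_of_mem_ne hr (fun h => hj (hc h)), mul_zero]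
  · intro h; exact absurd hk h

theorem ind_sum_not {code : ι → ℕ} {s : Finset ι} (a : ι → ℝ)
    {r : ℝ} (hr : ∀ k ∈ s, r ∉ I (code k)) :
    ∑ j ∈ s, a j * ind (code j) r = 0 :=
  Finset.sum_eq_zero (fun j hj => by rw [ind_of_notMem (hr j hj), mul_zero])

theorem comb_coe (code : ι → ℕ) (s : Finset ι) (a : ι → ℝ) :
    (comb code s a : ℝ → ℝ) =ᵐ[mu] fun r => ∑ j ∈ s, a j * ind (code j) r := by
  classical
  induction s using Finset.induction_on with
  | empty =>
    simp only [comb, Finset.sum_empty]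
    exact Lp.coeFn_zero ℝ 1 mu
  | insert k s hk ih =>
    have h1 : comb code (insert k s) a = a k • d (code k) + comb code s a := by
      simp only [comb, Finset.sum_insert hk]
    rw [h1]
    filter_upwards [Lp.coeFn_add (a k • d (code k)) (comb code s a),
      Lp.coeFn_smul (a k) (d (code k)), d_coe (code k), ih] with r h2 h3 h4 h5
    rw [h2, Pi.add_apply, h3, h5, Pi.smul_apply, h4, Finset.sum_insert hk, smul_eq_mul]

theorem ind_nonneg (n : ℕ) (r : ℝ) : 0 ≤ ind n r := by
  by_cases h : r ∈ I n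
  · rw [ind_of_mem h]; positivity
  · rw [ind_of_notMem h]

theorem comb_abs {code : ι → ℕ} (hc : Function.Injective code) (s : Finset ι) (a : ι → ℝ) :
    |comb code s a| = comb code s (fun j => |a j|) := by
  apply Lp.ext
  filter_upwards [Lp.coeFn_abs (comb code s a), comb_coe code s a,
    comb_coe code s (fun j => |a j|)] with r h1 h2 h3
  rw [h1, h2, h3]
  by_cases h : ∃ k ∈ s, r ∈ I (code k)
  · obtain ⟨k, hk, hr⟩ := h
    rw [ind_sum_mem hc a hk hr, ind_sum_mem hc _ hk hr, abs_mul, abs_of_nonneg (a := (2:ℝ) ^ _)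
      (by positivity)]
  · push Not at h
    rw [ind_sum_not a h, ind_sum_not _ h, abs_zero]

theorem K_congr {n : ℕ} {f g : L1} (h : ∀ᵐ r ∂mu, r ∈ I n → f r = g r) : K n f = K n g := by
  rw [K_eq, K_eq]
  refine setIntegral_congr_ae (I_meas n) ?_
  filter_upwards [h] with r hr hm
  rw [hr hm]

theorem K_comb_mem {code : ι → ℕ} (hc : Function.Injective code) {s : Finset ι} (a : ι → ℝ)
    {k : ι} (hk : k ∈ s) : K (code k) (comb code s a) = |a k| := by
  rw [K_eq]
  have h1 : ∫ r in I (code k), |comb code s a r| ∂mu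
      = ∫ r in I (code k), |a k| * (2:ℝ) ^ (code k + 1) ∂mu := by
    refine setIntegral_congr_ae (I_meas _) ?_
    filter_upwards [comb_coe code s a] with r h2 hr
    rw [h2, ind_sum_mem hc a hk hr, abs_mul, abs_of_nonneg (a := (2:ℝ) ^ _) (by positivity)]
  rw [h1, setIntegral_const, mu_real_I, smul_eq_mul]
  have : (1/2 : ℝ) ^ (code k + 1) * (2:ℝ) ^ (code k + 1) = 1 := by
    rw [← mul_pow]; norm_num
  calc (1/2 : ℝ) ^ (code k + 1) * (|a k| * (2:ℝ) ^ (code k + 1))
      = |a k| * ((1/2 : ℝ) ^ (code k + 1) * (2:ℝ) ^ (code k + 1)) := by ring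
    _ = |a k| := by rw [this, mul_one]

theorem K_comb_not {code : ι → ℕ} {s : Finset ι} (a : ι → ℝ) {n : ℕ}
    (h : ∀ k ∈ s, code k ≠ n) : K n (comb code s a) = 0 := by
  have h1 : K n (comb code s a) = K n 0 := by
    apply K_congr
    filter_upwards [comb_coe code s a, Lp.coeFn_zero ℝ 1 mu] with r h2 h3 hr
    rw [h2, h3, ind_sum_not a]
    · rfl
    · intro k hk hr2
      exact Set.disjoint_left.mp (I_disj (h k hk)) hr2 hr
  rw [h1]
  have := K_le n (0 : L1)
  rw [norm_zero] at this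
  exact le_antisymm this (K_nonneg n 0)

/-- The tail of the norm. -/
noncomputable def R (N : ℕ) (f : L1) : ℝ := ‖f‖ - ∑ n ∈ Finset.range N, K n f

theorem R_cont (N : ℕ) : Continuous (R N) :=
  continuous_norm.sub (continuous_finset_sum _ (fun n _ => K_cont n))

theorem R_anti {M N : ℕ} (h : M ≤ N) (f : L1) : R N f ≤ R M f := by
  unfold R
  have : ∑ n ∈ Finset.range M, K n f ≤ ∑ n ∈ Finset.range N, K n f :=
    Finset.sum_le_sum_of_subset_of_nonneg (Finset.range_mono h) (fun n _ _ => K_nonneg n f)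
  linarith

theorem R_small (f : L1) {ε : ℝ} (he : 0 < ε) : ∃ N, R N f < ε := by
  have h := (K_hasSum f).tendsto_sum_nat
  have h2 := h.eventually (lt_mem_nhds (show ‖f‖ - ε < ‖f‖ by linarith))
  obtain ⟨N, hN⟩ := h2.exists
  exact ⟨N, by unfold R; linarith⟩

theorem trunc {code : ι → ℕ} (hc : Function.Injective code) (s : Finset ι) (a : ι → ℝ)
    (N : ℕ) (f : L1) :
    ‖f - comb code (s.filter (fun j => code j < N)) a‖ ≤ ‖f - comb code s a‖ + R N f := by
  set g := comb code s a with hg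
  set g' := comb code (s.filter (fun j => code j < N)) a with hg'
  have h1 : ∀ n, n < N → K n (f - g') = K n (f - g) := by
    intro n hn
    apply K_congr
    filter_upwards [Lp.coeFn_sub f g, Lp.coeFn_sub f g', comb_coe code s a,
      comb_coe code (s.filter (fun j => code j < N)) a] with r e1 e2 e3 e4 hr
    rw [e1, e2, Pi.sub_apply, Pi.sub_apply, hg, hg', e3, e4]
    congr 1
    by_cases h : ∃ k ∈ s, code k = n
    · obtain ⟨k, hk, rfl⟩ := h
      rw [ind_sum_mem hc a hk hr, ind_sum_mem hc a (Finset.mem_filter.mpr ⟨hk, hn⟩) hr]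
    · push Not at h
      have h3 : ∀ k ∈ s, r ∉ I (code k) := fun k hk hr2 =>
        Set.disjoint_left.mp (I_disj (h k hk)) hr2 hr
      rw [ind_sum_not a h3, ind_sum_not a (fun k hk => h3 k (Finset.mem_filter.mp hk).1)]
  have h2 : ∀ n, N ≤ n → K n (f - g') = K n f := by
    intro n hn
    apply K_congr
    filter_upwards [Lp.coeFn_sub f g',
      comb_coe code (s.filter (fun j => code j < N)) a] with r e2 e4 hr
    rw [e2, Pi.sub_apply, hg', e4, ind_sum_not a, sub_zero]
    intro k hk hr2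
    have hk2 := (Finset.mem_filter.mp hk).2
    exact Set.disjoint_left.mp (I_disj (show code k ≠ n by omega)) hr2 hr
  have a1 : HasSum (fun n => K (n+N) (f - g'))
      (‖f - g'‖ - ∑ n ∈ Finset.range N, K n (f - g')) :=
    (hasSum_nat_add_iff' N).mpr (K_hasSum (f - g'))
  have a2 : HasSum (fun n => K (n+N) f) (‖f‖ - ∑ n ∈ Finset.range N, K n f) :=
    (hasSum_nat_add_iff' N).mpr (K_hasSum f)
  have a3 : (fun n => K (n+N) (f - g')) = (fun n => K (n+N) f) := by
    funext n; exact h2 (n+N) (by omega)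
  rw [a3] at a1
  have a4 := a1.unique a2
  have a5 : ∑ n ∈ Finset.range N, K n (f - g') = ∑ n ∈ Finset.range N, K n (f - g) :=
    Finset.sum_congr rfl (fun n hn => h1 n (Finset.mem_range.mp hn))
  have a6 : ∑ n ∈ Finset.range N, K n (f - g) ≤ ‖f - g‖ :=
    sum_le_hasSum _ (fun n _ => K_nonneg n _) (K_hasSum (f - g))
  unfold R
  linarith

end Pool.Agent.Q211.BL
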