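import Pool.Agent.Q211.BL.Only

/-!
# Continuity of D -> F_D for the Wijsman topology
-/

open MeasureTheory Topology

namespace Pool.Agent.Q211.BL

theorem unif_tail (α : CC) {ε : ℝ} (he : 0 < ε) : ∃ N, ∀ t, R N (α t) < ε := by
  have hopen : ∀ N, IsOpen {t : Delta | R N (α t) < ε} := fun N =>
    isOpen_lt ((R_cont N).comp α.continuous) continuous_const
  obtain ⟨N, hN⟩ := isCompact_univ.elim_directed_cover (fun N => {t : Delta | R N (α t) < ε})
    hopen (by
      intro t _
      obtain ⟨N, hN⟩ := R_small (α t) he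
      exact Set.mem_iUnion.mpr ⟨N, hN⟩) (by
      intro M N
      refine ⟨max M N, ?_, ?_⟩
      · intro t ht
        exact lt_of_le_of_lt (R_anti (le_max_left _ _) _) ht
      · intro t ht
        exact lt_of_le_of_lt (R_anti (le_max_right _ _) _) ht)
  exact ⟨N, fun t => hN (Set.mem_univ t)⟩

theorem dist_close (α : CC) {ε : ℝ} (he : 0 < ε) : ∃ N : ℕ, ∀ D D' : Set (List Bool),
    (∀ u ∈ D, code (some u) < N → u ∈ D') →
    Metric.infDist α ((F D').1 : Set CC) ≤ Metric.infDist α ((F D).1 : Set CC) + ε := by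
  obtain ⟨N, hN⟩ := unif_tail α he
  refine ⟨N, fun D D' h => ?_⟩
  refine le_of_forall_pos_le_add (fun δ hδ => ?_)
  rw [F_coe D, Metric.infDist_closure]
  have hlt : Metric.infDist α (V D : Set CC) < Metric.infDist α (V D : Set CC) + δ := by linarith
  rw [Metric.infDist_lt_iff ⟨0, Submodule.zero_mem _⟩] at hlt
  obtain ⟨x, hx, hxd⟩ := hlt
  obtain ⟨s, hs, c, rfl⟩ := mem_V hx
  set x' := comE (s.filter (fun j => code j < N)) c with hx'
  have hmem : x' ∈ V D' := by
    refine comE_mem (fun j hj => ?_) c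
    obtain ⟨hj1, hj2⟩ := Finset.mem_filter.mp hj
    cases j with
    | none => exact none_mem D'
    | some u => exact some_mem.mpr (h u (some_mem.mp (hs _ hj1)) hj2)
  have h1 : Metric.infDist α ((F D').1 : Set CC) ≤ dist α x' :=
    Metric.infDist_le_dist_of_mem (V_le_F D' hmem)
  have h2 : dist α x' ≤ dist α (comE s c) + ε := by
    rw [dist_eq_norm, dist_eq_norm, ContinuousMap.norm_le _ (by positivity)]
    intro t
    have e1 : (α - x') t = α t - x' t := rfl
    rw [e1, hx', comE_apply]
    have e2 := trunc code_inj s (fun j => c j * w j t) N (α t)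
    have e3 := ContinuousMap.norm_coe_le_norm (α - comE s c) t
    have e4 : (α - comE s c) t = α t - comE s c t := rfl
    rw [e4, comE_apply] at e3
    have e5 := (hN t).le
    linarith
  linarith

theorem F_cont {Y : Type} [TopologicalSpace Y] (g : Y → Set (List Bool))
    (hg : ∀ u, IsClopen {y | u ∈ g y}) (α : CC) :
    Continuous (fun y => Metric.infDist α ((F (g y)).1 : Set CC)) := by
  rw [continuous_iff_continuousAt]
  intro y0
  rw [ContinuousAt, Metric.tendsto_nhds]
  intro ε he
  obtain ⟨N, hN⟩ := dist_close α (half_pos he)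
  have hfin : {u : List Bool | code (some u) < N}.Finite := by
    refine Set.Finite.of_injOn (f := fun u => code (some u)) (t := Set.Iio N) (fun u hu => hu) ?_
      (Set.finite_Iio N)
    intro a _ b _ hab
    exact Option.some.inj (code_inj hab)
  have hev : ∀ᶠ y in 𝓝 y0, ∀ u ∈ {u : List Bool | code (some u) < N}, (u ∈ g y ↔ u ∈ g y0) := by
    rw [Filter.eventually_all_finite hfin]
    intro u _
    by_cases h : u ∈ g y0
    · filter_upwards [(hg u).isOpen.mem_nhds h] with y hy
      exact ⟨fun _ => h, fun _ => hy⟩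
    · have : y0 ∈ {y | u ∈ g y}ᶜ := h
      filter_upwards [(hg u).compl.isOpen.mem_nhds this] with y hy
      exact ⟨fun h1 => absurd h1 hy, fun h1 => absurd h1 h⟩
  filter_upwards [hev] with y hy
  have h1 := hN (g y) (g y0) (fun u hu hc => (hy u hc).mp hu)
  have h2 := hN (g y0) (g y) (fun u hu hc => (hy u hc).mpr hu)
  rw [Real.dist_eq, abs_lt]
  constructor <;> linarith

end Pool.Agent.Q211.BL
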