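import Mathlib

/-!
# Closed sublattices of C(Cantor set; L_1[0,1])

Definitions for the complexity of strict monotonicity.
-/

open MeasureTheory Topology

namespace Pool.Agent.Q211.BL

/-- The Cantor set. -/
abbrev Delta : Type := ℕ → Bool

/-- The real Banach lattice `L_1[0,1]`. -/
abbrev L1 : Type := Lp ℝ 1 (volume.restrict (Set.Icc (0:ℝ) 1))

/-- The Banach lattice `C(Delta; L_1[0,1])` with the supremum norm and the pointwise order. -/
abbrev CC : Type := C(Delta, L1)

/-- The set of closed sublattices of `CC`: closed linear subspaces `F` with `|y| ∈ F` for all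
`y ∈ F`. -/
def Subl : Type := {F : Submodule ℝ CC // IsClosed (F : Set CC) ∧ ∀ y ∈ F, |y| ∈ F}

/-- The map `F ↦ (dist (α n, F))_n`. -/
noncomputable def dists (α : ℕ → CC) (F : Subl) : ℕ → ℝ :=
  fun n => Metric.infDist (α n) (F.1 : Set CC)

/-- The Wijsman topology given by the sequence `α`: the coarsest topology for which
`F ↦ (dist (α n, F))_n` is continuous. -/
noncomputable def wijsman (α : ℕ → CC) : TopologicalSpace Subl :=
  TopologicalSpace.induced (dists α) Pi.topologicalSpace

/-- Strict monotonicity of a closed sublattice. -/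
def StrictlyMonotone (F : Subl) : Prop :=
  ∀ x ∈ F.1, ∀ y ∈ F.1, 0 < y → y ≤ x → ‖x - y‖ < ‖x‖

/-- A set `A` in a topological space `Z` is boldface Pi^1_1-complete: it is coanalytic, and for
every zero-dimensional Polish space `Y` and every coanalytic `B ⊆ Y` there is a continuous
`f : Y → Z` with `f ⁻¹ A = B`. -/
def Pi11Complete {Z : Type} (t : TopologicalSpace Z) (A : Set Z) : Prop :=
  AnalyticSet Aᶜ ∧
    ∀ (Y : Type) [TopologicalSpace Y] [PolishSpace Y],
      TopologicalSpace.IsTopologicalBasis {s : Set Y | IsClopen s} →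
      ∀ B : Set Y, AnalyticSet Bᶜ → ∃ f : Y → Z, Continuous f ∧ f ⁻¹' A = B

end Pool.Agent.Q211.BL
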