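import Pool.Agent.Q211.BL.Def

/-!
# A disjoint normalized sequence in L_1[0,1]
-/

open MeasureTheory Topology

namespace Pool.Agent.Q211.BL

/-- The measure. -/
noncomputable abbrev mu : Measure ℝ := volume.restrict (Set.Icc (0:ℝ) 1)

/-- Disjoint intervals filling `(0,1]`. -/
def I (n : ℕ) : Set ℝ := Set.Ioc ((1/2 : ℝ) ^ (n+1)) ((1/2 : ℝ) ^ n)

theorem I_meas (n : ℕ) : MeasurableSet (I n) := measurableSet_Ioc

theorem I_sub (n : ℕ) : I n ⊆ Set.Icc (0:ℝ) 1 := by
  intro r hr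
  refine ⟨?_, ?_⟩
  · have : (0:ℝ) < (1/2 : ℝ) ^ (n+1) := by positivity
    exact (this.trans hr.1).le
  · exact hr.2.trans (pow_le_one₀ (by norm_num) (by norm_num))

theorem I_lt {m n : ℕ} (h : m < n) : Disjoint (I m) (I n) := by
  rw [Set.disjoint_left]
  intro r h1 h2
  have a : r ≤ (1/2 : ℝ) ^ n := h2.2
  have b : (1/2 : ℝ) ^ (m+1) < r := h1.1
  have c : (1/2 : ℝ) ^ n ≤ (1/2 : ℝ) ^ (m+1) :=
    pow_le_pow_of_le_one (by norm_num) (by norm_num) h
  linarith

theorem I_disj : Pairwise (Function.onFun Disjoint I) := by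
  intro m n h
  rcases lt_or_gt_of_ne h with h1 | h1
  · exact I_lt h1
  · exact (I_lt h1).symm

theorem I_union : (⋃ n, I n) = Set.Ioc (0:ℝ) 1 := by
  ext r
  simp only [Set.mem_iUnion]
  constructor
  · rintro ⟨n, hn⟩
    refine ⟨?_, (I_sub n hn).2⟩
    have : (0:ℝ) < (1/2 : ℝ) ^ (n+1) := by positivity
    exact this.trans hn.1
  · rintro ⟨h0, h1⟩
    have hex : ∃ n : ℕ, (1/2 : ℝ) ^ (n+1) < r := by
      obtain ⟨n, hn⟩ := exists_pow_lt_of_lt_one h0 (show (1/2 : ℝ) < 1 by norm_num)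
      exact ⟨n, lt_of_le_of_lt (pow_le_pow_of_le_one (by norm_num) (by norm_num)
        (Nat.le_succ n)) hn⟩
    classical
    refine ⟨Nat.find hex, Nat.find_spec hex, ?_⟩
    rcases Nat.eq_zero_or_pos (Nat.find hex) with h | h
    · rw [h]; simpa using h1
    · have := Nat.find_min hex (m := Nat.find hex - 1) (by omega)
      rw [Nat.sub_add_cancel h] at this
      exact not_lt.mp this

theorem mu_I (n : ℕ) : mu (I n) = ENNReal.ofReal ((1/2 : ℝ) ^ (n+1)) := by
  have : mu (I n) = volume (I n) := by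
    rw [Measure.restrict_apply (I_meas n), Set.inter_eq_left.mpr (I_sub n)]
  rw [this, I, Real.volume_Ioc]
  congr 1
  rw [pow_succ]; ring

theorem mu_I_ne (n : ℕ) : mu (I n) ≠ ⊤ := by rw [mu_I]; exact ENNReal.ofReal_ne_top

theorem mu_real_I (n : ℕ) : mu.real (I n) = (1/2 : ℝ) ^ (n+1) := by
  rw [Measure.real, mu_I, ENNReal.toReal_ofReal (by positivity)]

/-- The normalized indicators. -/
noncomputable def d (n : ℕ) : L1 := indicatorConstLp 1 (I_meas n) (mu_I_ne n) ((2:ℝ) ^ (n+1))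

/-- The indicator function. -/
noncomputable def ind (n : ℕ) (r : ℝ) : ℝ := (I n).indicator (fun _ => (2:ℝ) ^ (n+1)) r

theorem d_coe (n : ℕ) : (d n : ℝ → ℝ) =ᵐ[mu] ind n := indicatorConstLp_coeFn

/-- The integral of `|f|` over `I n`. -/
noncomputable def K (n : ℕ) (f : L1) : ℝ := ∫ r in I n, (|f| : L1) r ∂mu

theorem abs_cont : Continuous (fun f : L1 => |f|) :=
  continuous_id.sup continuous_neg

theorem K_cont (n : ℕ) : Continuous (K n) :=
  (continuous_setIntegral (μ := mu) (I n)).comp abs_cont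

theorem K_eq (n : ℕ) (f : L1) : K n f = ∫ r in I n, |f r| ∂mu := by
  unfold K
  refine setIntegral_congr_ae (I_meas n) ?_
  filter_upwards [Lp.coeFn_abs f] with r hr _
  exact hr

theorem K_nonneg (n : ℕ) (f : L1) : 0 ≤ K n f := by
  rw [K_eq]
  exact integral_nonneg (fun r => abs_nonneg _)

theorem K_hasSum (f : L1) : HasSum (fun n => K n f) ‖f‖ := by
  have h1 : Integrable (fun r => |f r|) mu := (L1.integrable_coeFn f).abs
  have h2 := hasSum_integral_iUnion (μ := mu) (f := fun r => |f r|) I_meas I_disj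
    h1.integrableOn
  have h3 : ∫ r in ⋃ n, I n, |f r| ∂mu = ‖f‖ := by
    rw [L1.norm_eq_integral_norm]
    have h4 : (⋃ n, I n) =ᵐ[mu] (Set.univ : Set ℝ) := by
      rw [I_union]
      have h5 : Set.Ioc (0:ℝ) 1 =ᵐ[mu] Set.Icc (0:ℝ) 1 :=
        ae_restrict_of_ae (Ioc_ae_eq_Icc (μ := volume))
      refine h5.trans ?_
      have h6 : ∀ᵐ r ∂mu, r ∈ Set.Icc (0:ℝ) 1 := ae_restrict_mem measurableSet_Icc
      filter_upwards [h6] with r hr
      exact propext ⟨fun _ => trivial, fun _ => hr⟩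
    rw [setIntegral_congr_set h4, setIntegral_univ]
    rfl
  rw [h3] at h2
  refine h2.congr_fun ?_ |> fun h => h
  intro n
  exact (K_eq n f)

theorem K_le (n : ℕ) (f : L1) : K n f ≤ ‖f‖ :=
  le_hasSum (K_hasSum f) n (fun j _ => K_nonneg j f)

theorem K_mono (n : ℕ) {f g : L1} (hf : 0 ≤ f) (h : f ≤ g) : K n f ≤ K n g := by
  rw [K_eq, K_eq]
  refine setIntegral_mono_ae ((L1.integrable_coeFn f).abs.integrableOn)
    ((L1.integrable_coeFn g).abs.integrableOn) ?_
  have h1 := (Lp.coeFn_nonneg f).mpr hf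
  have h2 := (Lp.coeFn_le f g).mpr h
  filter_upwards [h1, h2] with r a b
  have a' : (0:ℝ) ≤ f r := a
  rw [abs_of_nonneg a', abs_of_nonneg (a'.trans b)]
  exact b

end Pool.Agent.Q211.BL
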