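import Pool.Agent.Q211.BL.Comb

/-!
# The sublattices F_D
-/

open MeasureTheory Topology

namespace Pool.Agent.Q211.BL

/-- The weight `w_0`. -/
noncomputable def w0 (t : Delta) : ℝ :=
  ∑' i : ℕ, (1/2 : ℝ) ^ (i+1) * (if t (2*i) = true then 1 else 0)

theorem half_sum : HasSum (fun i : ℕ => (1/2 : ℝ) ^ (i+1)) 1 := by
  have := (hasSum_geometric_of_lt_one (r := (1/2:ℝ)) (by norm_num) (by norm_num)).mul_left (1/2)
  have e1 : (fun i : ℕ => (1/2 : ℝ) ^ (i+1)) = fun i : ℕ => 1/2 * (1/2 : ℝ) ^ i := by
    funext i; rw [pow_succ]; ring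
  have e2 : (1/2 : ℝ) * (1 - 1/2)⁻¹ = 1 := by norm_num
  rw [e2] at this
  rw [e1]
  exact this

theorem term_le (t : Delta) (i : ℕ) :
    (1/2 : ℝ) ^ (i+1) * (if t (2*i) = true then 1 else 0) ≤ (1/2 : ℝ) ^ (i+1) := by
  split_ifs <;> simp

theorem term_nonneg (t : Delta) (i : ℕ) :
    0 ≤ (1/2 : ℝ) ^ (i+1) * (if t (2*i) = true then 1 else 0) := by
  split_ifs <;> simp

theorem w0_summable (t : Delta) :
    Summable (fun i : ℕ => (1/2 : ℝ) ^ (i+1) * (if t (2*i) = true then 1 else 0)) :=
  Summable.of_nonneg_of_le (term_nonneg t) (term_le t) half_sum.summable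

theorem w0_nonneg (t : Delta) : 0 ≤ w0 t := tsum_nonneg (term_nonneg t)

theorem w0_cont : Continuous w0 := by
  unfold w0
  refine continuous_tsum (u := fun i : ℕ => (1/2 : ℝ) ^ (i+1)) ?_ half_sum.summable ?_
  · intro i
    refine continuous_const.mul ?_
    have : Continuous (fun b : Bool => if b = true then (1:ℝ) else 0) := continuous_of_discreteTopology
    exact this.comp (continuous_apply (2*i))
  · intro i t
    rw [Real.norm_of_nonneg (term_nonneg t i)]
    exact term_le t i

theorem w0_pos {t : Delta} {i : ℕ} (h : t (2*i) = true) : 0 < w0 t := by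
  have h1 := (w0_summable t).le_tsum i (fun j _ => term_nonneg t j)
  have h2 : (0:ℝ) < (1/2 : ℝ) ^ (i+1) * (if t (2*i) = true then 1 else 0) := by
    rw [if_pos h]; positivity
  exact lt_of_lt_of_le h2 h1

theorem w0_zero {t : Delta} (h : ∀ i, t (2*i) = false) : w0 t = 0 := by
  unfold w0
  simp [h]

theorem w0_zero_iff (t : Delta) : w0 t = 0 ↔ ∀ i, t (2*i) = false := by
  constructor
  · intro h i
    by_contra h2
    have := w0_pos (t := t) (i := i) (by simpa using h2)
    linarith
  · exact w0_zero

theorem w0_le {t : Delta} {n : ℕ} (h : ∀ i < n, t (2*i) = false) : w0 t ≤ (1/2 : ℝ) ^ n := by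
  unfold w0
  have h1 := (w0_summable t).sum_add_tsum_nat_add n
  rw [← h1]
  have h2 : ∑ i ∈ Finset.range n, (1/2 : ℝ) ^ (i+1) * (if t (2*i) = true then 1 else 0) = 0 := by
    refine Finset.sum_eq_zero (fun i hi => ?_)
    rw [h i (Finset.mem_range.mp hi)]
    simp
  rw [h2, zero_add]
  have h3 : HasSum (fun i : ℕ => (1/2 : ℝ) ^ (i+n+1)) ((1/2 : ℝ) ^ n) := by
    have := half_sum.mul_left ((1/2 : ℝ) ^ n)
    rw [mul_one] at this
    refine this.congr_fun ?_ |> fun h => h
    intro i
    rw [← pow_add]; congr 1; omega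
  rw [← h3.tsum_eq]
  exact ((summable_nat_add_iff n).mpr (w0_summable t)).tsum_le_tsum (fun i => term_le t (i+n))
    h3.summable

/-- The basic clopen set of a node. -/
def inU (u : List Bool) (t : Delta) : Prop :=
  ∀ i (h : i < u.length), t (2*i) = false ∧ t (2*i+1) = u[i]

theorem inU_clopen (u : List Bool) : IsClopen {t : Delta | inU u t} := by
  have : {t : Delta | inU u t} = ⋂ i : Fin u.length,
      ({t : Delta | t (2*i.1) = false} ∩ {t : Delta | t (2*i.1+1) = u[i.1]}) := by
    ext t
    simp only [Set.mem_setOf_eq, Set.mem_iInter, Set.mem_inter_iff, inU]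
    exact ⟨fun h i => h i.1 i.2, fun h i hi => h ⟨i, hi⟩⟩
  rw [this]
  refine isClopen_iInter_of_finite (fun i => ?_)
  refine IsClopen.inter ?_ ?_
  · exact (isClopen_discrete ({false} : Set Bool)).preimage
      (continuous_apply (2*i.1) : Continuous (fun t : Delta => t (2*i.1)))
  · exact (isClopen_discrete ({u[i.1]} : Set Bool)).preimage
      (continuous_apply (2*i.1+1) : Continuous (fun t : Delta => t (2*i.1+1)))

open Classical in
/-- The weight of a node. -/
noncomputable def wu (u : List Bool) (t : Delta) : ℝ := if inU u t then 1 else 1/2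

theorem wu_pos (u : List Bool) (t : Delta) : 0 < wu u t := by
  unfold wu; split_ifs <;> norm_num

theorem wu_le_one (u : List Bool) (t : Delta) : wu u t ≤ 1 := by
  unfold wu; split_ifs <;> norm_num

theorem wu_mem {u : List Bool} {t : Delta} (h : inU u t) : wu u t = 1 := if_pos h

theorem wu_not {u : List Bool} {t : Delta} (h : ¬ inU u t) : wu u t = 1/2 := if_neg h

theorem wu_ge (u : List Bool) (t : Delta) : 1/2 ≤ wu u t := by
  unfold wu; split_ifs <;> norm_num

theorem wu_cont (u : List Bool) : Continuous (wu u) := by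
  classical
  unfold wu
  refine Continuous.if ?_ continuous_const continuous_const
  intro a ha
  rw [(inU_clopen u).frontier_eq] at ha
  exact absurd ha (Set.notMem_empty a)

/-- Indices. -/
abbrev Idx : Type := Option (List Bool)

/-- All weights. -/
noncomputable def w : Idx → Delta → ℝ
  | none => w0
  | some u => wu u

theorem w_cont (j : Idx) : Continuous (w j) := by
  cases j with
  | none => exact w0_cont
  | some u => exact wu_cont u

theorem w_nonneg (j : Idx) (t : Delta) : 0 ≤ w j t := by
  cases j with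
  | none => exact w0_nonneg t
  | some u => exact (wu_pos u t).le

/-- The code of an index. -/
def code : Idx → ℕ := Encodable.encode

theorem code_inj : Function.Injective code := Encodable.encode_injective

/-- The generators. -/
noncomputable def e (j : Idx) : CC := ⟨fun t => w j t • d (code j), (w_cont j).smul continuous_const⟩

theorem e_apply (j : Idx) (t : Delta) : e j t = w j t • d (code j) := rfl

/-- The index set of `D`. -/
def Dp (D : Set (List Bool)) : Set Idx := {j | ∀ u, j = some u → u ∈ D}

theorem none_mem (D : Set (List Bool)) : (none : Idx) ∈ Dp D := fun u h => by simp at h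

theorem some_mem {D : Set (List Bool)} {u : List Bool} : (some u : Idx) ∈ Dp D ↔ u ∈ D := by
  constructor
  · intro h; exact h u rfl
  · intro h v hv; rw [← Option.some.inj hv]; exact h

/-- The span. -/
noncomputable def V (D : Set (List Bool)) : Submodule ℝ CC := Submodule.span ℝ (e '' Dp D)

/-- Finite combinations of the generators. -/
noncomputable def comE (s : Finset Idx) (c : Idx → ℝ) : CC := ∑ j ∈ s, c j • e j

theorem comE_apply (s : Finset Idx) (c : Idx → ℝ) (t : Delta) :
    comE s c t = comb code s (fun j => c j * w j t) := by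
  unfold comE comb
  rw [ContinuousMap.sum_apply]
  refine Finset.sum_congr rfl (fun j _ => ?_)
  rw [ContinuousMap.smul_apply, e_apply, smul_smul]

theorem comE_mem {D : Set (List Bool)} {s : Finset Idx} (hs : ∀ j ∈ s, j ∈ Dp D) (c : Idx → ℝ) :
    comE s c ∈ V D :=
  Submodule.sum_mem _ (fun j hj => Submodule.smul_mem _ _ (Submodule.subset_span ⟨j, hs j hj, rfl⟩))

theorem mem_V {D : Set (List Bool)} {x : CC} (h : x ∈ V D) :
    ∃ s : Finset Idx, (∀ j ∈ s, j ∈ Dp D) ∧ ∃ c : Idx → ℝ, x = comE s c := by
  unfold V at h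
  rw [Finsupp.mem_span_image_iff_linearCombination] at h
  obtain ⟨l, hl, rfl⟩ := h
  refine ⟨l.support, fun j hj => ?_, l, ?_⟩
  · exact (Finsupp.mem_supported ℝ l).mp hl hj
  · rfl

theorem comE_abs (s : Finset Idx) (c : Idx → ℝ) : |comE s c| = comE s (fun j => |c j|) := by
  ext1 t
  have h1 : |comE s c| t = |comE s c t| := rfl
  rw [h1, comE_apply, comb_abs code_inj, comE_apply]
  congr 1
  funext j
  rw [abs_mul, abs_of_nonneg (w_nonneg j t)]

theorem abs_cont' : Continuous (fun f : CC => |f|) := by
  refine LipschitzWith.continuous (K := 1) (LipschitzWith.of_dist_le_mul (fun f g => ?_))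
  rw [dist_eq_norm, dist_eq_norm, NNReal.coe_one, one_mul,
    ContinuousMap.norm_le _ (norm_nonneg _)]
  intro t
  have h1 : (|f| - |g|) t = |f t| - |g t| := rfl
  rw [h1]
  exact (norm_abs_sub_abs (f t) (g t)).trans (ContinuousMap.norm_coe_le_norm (f - g) t)

theorem V_abs {D : Set (List Bool)} {x : CC} (h : x ∈ V D) : |x| ∈ V D := by
  obtain ⟨s, hs, c, rfl⟩ := mem_V h
  rw [comE_abs]
  exact comE_mem hs _

/-- The closed sublattice `F_D`. -/
noncomputable def F (D : Set (List Bool)) : Subl :=
  ⟨(V D).topologicalClosure, (V D).isClosed_topologicalClosure, by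
    intro y hy
    exact map_mem_closure abs_cont' hy (fun a ha => V_abs ha)⟩

theorem F_coe (D : Set (List Bool)) : ((F D).1 : Set CC) = closure (V D : Set CC) :=
  Submodule.topologicalClosure_coe _

theorem V_le_F (D : Set (List Bool)) : V D ≤ (F D).1 := Submodule.le_topologicalClosure _

end Pool.Agent.Q211.BL
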