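import Pool.Agent.Q211.BL.Fam

/-!
# When F_D is strictly monotone
-/

open MeasureTheory Topology

namespace Pool.Agent.Q211.BL

theorem KE_cont (n : ℕ) (t : Delta) : Continuous (fun x : CC => K n (x t)) :=
  (K_cont n).comp (continuous_eval_const t)

theorem P1 {D : Set (List Bool)} {x : CC} (hx : x ∈ (F D).1) (k : Idx) (t t' : Delta) :
    w k t' * K (code k) (x t) = w k t * K (code k) (x t') := by
  have hcl : IsClosed {x : CC | w k t' * K (code k) (x t) = w k t * K (code k) (x t')} :=
    isClosed_eq (continuous_const.mul (KE_cont _ t)) (continuous_const.mul (KE_cont _ t'))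
  have hsub : (V D : Set CC) ⊆
      {x : CC | w k t' * K (code k) (x t) = w k t * K (code k) (x t')} := by
    intro y hy
    obtain ⟨s, hs, c, rfl⟩ := mem_V hy
    simp only [Set.mem_setOf_eq]
    rw [comE_apply, comE_apply]
    by_cases hk : k ∈ s
    · rw [K_comb_mem code_inj _ hk, K_comb_mem code_inj _ hk, abs_mul, abs_mul,
        abs_of_nonneg (w_nonneg k t), abs_of_nonneg (w_nonneg k t')]
      ring
    · have hne : ∀ j ∈ s, code j ≠ code k := fun j hj h => hk (code_inj h ▸ hj)
      rw [K_comb_not _ hne, K_comb_not _ hne, mul_zero, mul_zero]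
  have hx' : x ∈ closure (V D : Set CC) := by rw [← F_coe]; exact hx
  exact closure_minimal hsub hcl hx'

theorem P2 {D : Set (List Bool)} {x : CC} (hx : x ∈ (F D).1) {n : ℕ}
    (hn : ∀ k ∈ Dp D, code k ≠ n) (t : Delta) : K n (x t) = 0 := by
  have hcl : IsClosed {x : CC | K n (x t) = 0} := isClosed_eq (KE_cont _ t) continuous_const
  have hsub : (V D : Set CC) ⊆ {x : CC | K n (x t) = 0} := by
    intro y hy
    obtain ⟨s, hs, c, rfl⟩ := mem_V hy
    simp only [Set.mem_setOf_eq]
    rw [comE_apply]
    exact K_comb_not _ (fun k hk => hn k (hs k hk))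
  have hx' : x ∈ closure (V D : Set CC) := by rw [← F_coe]; exact hx
  exact closure_minimal hsub hcl hx'

/-- Initial segments of a branch. -/
def pre (b : ℕ → Bool) (n : ℕ) : List Bool := (List.range n).map b

theorem pre_length (b : ℕ → Bool) (n : ℕ) : (pre b n).length = n := by simp [pre]

theorem pre_get (b : ℕ → Bool) (n i : ℕ) (h : i < (pre b n).length) : (pre b n)[i] = b i := by
  simp [pre]

theorem exists_norm (f : CC) : ∃ t, ‖f t‖ = ‖f‖ := by
  obtain ⟨t, -, ht⟩ := IsCompact.exists_isMaxOn (s := (Set.univ : Set Delta)) isCompact_univ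
    Set.univ_nonempty (f := fun t => ‖f t‖) (f.continuous.norm.continuousOn)
  refine ⟨t, le_antisymm (ContinuousMap.norm_coe_le_norm f t) ?_⟩
  rw [ContinuousMap.norm_le _ (norm_nonneg _)]
  intro s
  exact ht (Set.mem_univ s)

theorem K_zero (n : ℕ) : K n (0 : L1) = 0 := by
  have := K_le n (0 : L1)
  rw [norm_zero] at this
  exact le_antisymm this (K_nonneg n 0)

theorem norm_add_of_nonneg {f g : L1} (hf : 0 ≤ f) (hg : 0 ≤ g) : ‖f + g‖ = ‖f‖ + ‖g‖ := by
  rw [L1.norm_eq_integral_norm, L1.norm_eq_integral_norm, L1.norm_eq_integral_norm,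
    ← integral_add (L1.integrable_coeFn f).norm (L1.integrable_coeFn g).norm]
  refine integral_congr_ae ?_
  filter_upwards [Lp.coeFn_add f g, (Lp.coeFn_nonneg f).mpr hf, (Lp.coeFn_nonneg g).mpr hg]
    with r h1 h2 h3
  have h2' : (0:ℝ) ≤ f r := h2
  have h3' : (0:ℝ) ≤ g r := h3
  rw [h1, Pi.add_apply, Real.norm_of_nonneg h2', Real.norm_of_nonneg h3',
    Real.norm_of_nonneg (add_nonneg h2' h3')]

theorem mono_of {D : Set (List Bool)} (hD : ¬ ∃ b : ℕ → Bool, {n | pre b n ∈ D}.Infinite) :
    StrictlyMonotone (F D) := by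
  intro x hx y hy hy0 hyx
  have hyx' : ∀ t, y t ≤ x t := fun t => hyx t
  have hy0' : ∀ t, 0 ≤ y t := fun t => hy0.le t
  have hle : ‖x - y‖ ≤ ‖x‖ := by
    rw [ContinuousMap.norm_le _ (norm_nonneg _)]
    intro t
    have h1 := norm_add_of_nonneg (sub_nonneg.mpr (hyx' t)) (hy0' t)
    rw [sub_add_cancel] at h1
    have h2 := ContinuousMap.norm_coe_le_norm x t
    have h3 : (x - y) t = x t - y t := rfl
    rw [h3]
    have := norm_nonneg (y t)
    linarith
  refine lt_of_le_of_ne hle ?_
  intro heq
  obtain ⟨t, ht⟩ := exists_norm (x - y)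
  have h1 := norm_add_of_nonneg (sub_nonneg.mpr (hyx' t)) (hy0' t)
  rw [sub_add_cancel] at h1
  have h2 := ContinuousMap.norm_coe_le_norm x t
  have h3 : (x - y) t = x t - y t := rfl
  rw [h3, heq] at ht
  have h4 : ‖y t‖ = 0 := le_antisymm (by linarith) (norm_nonneg _)
  have h5 : y t = 0 := norm_eq_zero.mp h4
  have h6 : ‖x t‖ = ‖x‖ := by linarith
  -- a point where `y` does not vanish
  have hyne : y ≠ 0 := ne_of_gt hy0
  obtain ⟨t2, ht2⟩ : ∃ t2, y t2 ≠ 0 := by
    by_contra h
    push Not at h
    exact hyne (ContinuousMap.ext h)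
  have h7 : ∃ n, K n (y t2) ≠ 0 := by
    by_contra h
    push Not at h
    have := K_hasSum (y t2)
    simp only [h] at this
    exact ht2 (norm_eq_zero.mp (this.unique hasSum_zero))
  obtain ⟨n, hn⟩ := h7
  have h8 : ∃ k ∈ Dp D, code k = n := by
    by_contra h
    push Not at h
    exact hn (P2 hy h t2)
  obtain ⟨k, hk, rfl⟩ := h8
  have h9 := P1 hy k t t2
  rw [h5, K_zero, mul_zero] at h9
  have h10 : w k t = 0 := by
    rcases mul_eq_zero.mp h9.symm with h | h
    · exact h
    · exact absurd h hn
  have hkn : k = none := by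
    cases k with
    | none => rfl
    | some u =>
      have : 0 < w (some u) t := wu_pos u t
      linarith
  subst hkn
  have h11 : w0 t = 0 := h10
  have h12 := (w0_zero_iff t).mp h11
  have hKx : 0 < K (code none) (x t2) :=
    lt_of_lt_of_le (lt_of_le_of_ne (K_nonneg _ _) (Ne.symm hn)) (K_mono _ (hy0' t2) (hyx' t2))
  -- the branch
  set b : ℕ → Bool := fun i => t (2*i+1) with hb
  have hfin : {n | pre b n ∈ D}.Finite := by
    by_contra h
    exact hD ⟨b, h⟩
  obtain ⟨N, hN⟩ := hfin.bddAbove
  set t1 : Delta := Function.update t (2*(N+1)) true with ht1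
  have ht1e : t1 (2*(N+1)) = true := by rw [ht1]; simp
  have ht1n : ∀ m, m ≠ 2*(N+1) → t1 m = t m := fun m hm => by rw [ht1, Function.update_of_ne hm]
  have hw : ∀ u ∈ D, wu u t ≤ wu u t1 := by
    intro u hu
    by_cases h : inU u t
    · have hpre : pre b u.length = u := by
        apply List.ext_getElem
        · rw [pre_length]
        · intro i hi1 hi2
          rw [pre_get, hb]
          exact (h i hi2).2
      have hlen : u.length ≤ N := hN (by rw [Set.mem_setOf_eq, hpre]; exact hu)
      have h2 : inU u t1 := by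
        intro i hi
        rw [ht1n _ (by omega), ht1n _ (by omega)]
        exact h i hi
      rw [wu_mem h, wu_mem h2]
    · rw [wu_not h]
      exact wu_ge u t1
  have hK : ∀ n, K n (x t) ≤ K n (x t1) := by
    intro n
    by_cases hnk : ∃ k ∈ Dp D, code k = n
    · obtain ⟨k, hk, rfl⟩ := hnk
      cases k with
      | none =>
        have e1 := P1 hx none t t1
        have e2 : w none t = 0 := h11
        rw [e2, zero_mul] at e1
        rcases mul_eq_zero.mp e1 with h | h
        · have : 0 < w none t1 := w0_pos ht1e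
          linarith
        · rw [h]; exact K_nonneg _ _
      | some u =>
        have e1 := P1 hx (some u) t t1
        have e2 : w (some u) t ≤ w (some u) t1 := hw u (some_mem.mp hk)
        have e3 : 0 < w (some u) t := wu_pos u t
        have e4 : 0 < w (some u) t1 := wu_pos u t1
        have e5 := K_nonneg (code (some u)) (x t)
        by_contra hcon
        push Not at hcon
        have : w (some u) t * K (code (some u)) (x t1) < w (some u) t1 * K (code (some u)) (x t) :=
          calc w (some u) t * K (code (some u)) (x t1)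
              < w (some u) t * K (code (some u)) (x t) := by
                exact mul_lt_mul_of_pos_left hcon e3
            _ ≤ w (some u) t1 * K (code (some u)) (x t) := by
                exact mul_le_mul_of_nonneg_right e2 e5
        linarith
    · push Not at hnk
      rw [P2 hx hnk t, P2 hx hnk t1]
  have hK0 : K (code none) (x t) < K (code none) (x t1) := by
    have e1 : K (code none) (x t) = 0 := by
      have e1 := P1 hx none t t1
      have e2 : w none t = 0 := h11
      rw [e2, zero_mul] at e1
      rcases mul_eq_zero.mp e1 with h | h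
      · have : 0 < w none t1 := w0_pos ht1e
        linarith
      · exact h
    rw [e1]
    have e2 := P1 hx none t1 t2
    -- w t2 * K (x t1) = w t1 * K (x t2)
    have e3 : 0 < w none t1 := w0_pos ht1e
    have e4 : 0 < w none t1 * K (code none) (x t2) := mul_pos e3 hKx
    rw [← e2] at e4
    rcases (K_nonneg (code none) (x t1)).lt_or_eq with h | h
    · exact h
    · rw [← h, mul_zero] at e4
      exact absurd e4 (lt_irrefl _)
  have hfinal : ‖x t‖ < ‖x t1‖ := hasSum_lt hK hK0 (K_hasSum (x t)) (K_hasSum (x t1))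
  have := ContinuousMap.norm_coe_le_norm x t1
  linarith

end Pool.Agent.Q211.BL
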