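import Pool.Agent.Q211.BL.Mono

/-!
# F_D is not strictly monotone when a branch meets D infinitely often
-/

open MeasureTheory Topology

namespace Pool.Agent.Q211.BL

theorem d_norm (n : ℕ) : ‖d n‖ = 1 := by
  unfold d
  rw [norm_indicatorConstLp (by norm_num) (by norm_num), mu_real_I,
    Real.norm_of_nonneg (by positivity)]
  simp only [ENNReal.toReal_one, div_one, Real.rpow_one]
  rw [← mul_pow]; norm_num

theorem d_nonneg (n : ℕ) : 0 ≤ d n := by
  rw [← Lp.coeFn_nonneg]
  filter_upwards [d_coe n] with r hr
  rw [hr]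
  exact ind_nonneg n r

theorem smul_d_nonneg {c : ℝ} (hc : 0 ≤ c) (n : ℕ) : 0 ≤ c • d n := by
  rw [← Lp.coeFn_nonneg]
  filter_upwards [Lp.coeFn_smul c (d n), d_coe n] with r h1 h2
  rw [h1, Pi.smul_apply, h2, smul_eq_mul]
  exact mul_nonneg hc (ind_nonneg n r)

/-- Integral functional. -/
noncomputable def J (f : L1) : ℝ := ∫ r, f r ∂mu

theorem J_le (f : L1) : J f ≤ ‖f‖ := by
  unfold J
  rw [L1.norm_eq_integral_norm]
  exact (Real.le_norm_self _).trans (norm_integral_le_integral_norm _)

theorem J_d (n : ℕ) : J (d n) = 1 := by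
  have h : J (d n) = ‖d n‖ := by
    unfold J
    rw [L1.norm_eq_integral_norm]
    refine integral_congr_ae ?_
    filter_upwards [(Lp.coeFn_nonneg (d n)).mpr (d_nonneg n)] with r hr
    exact (Real.norm_of_nonneg hr).symm
  rw [h, d_norm]

/-- Integral functional as a continuous linear map. -/
noncomputable def JL : L1 →L[ℝ] ℝ := L1.integralCLM

theorem JL_eq (f : L1) : JL f = J f := by
  unfold JL J
  rw [← L1.integral_eq_integral]
  exact (L1.integral_eq f).symm

theorem e_norm_le (u : List Bool) : ‖e (some u)‖ ≤ 1 := by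
  rw [ContinuousMap.norm_le _ zero_le_one]
  intro t
  rw [e_apply, norm_smul, d_norm, mul_one, Real.norm_of_nonneg (w_nonneg _ _)]
  exact wu_le_one u t

/-- Coefficients. -/
noncomputable def cc (m : ℕ) : ℝ := 2 * (1/2 : ℝ) ^ m

theorem cc_pos (m : ℕ) : 0 < cc m := by unfold cc; positivity

theorem cc_sum : HasSum cc 4 := by
  have := (hasSum_geometric_of_lt_one (r := (1/2:ℝ)) (by norm_num) (by norm_num)).mul_left 2
  have e2 : (2 : ℝ) * (1 - 1/2)⁻¹ = 4 := by norm_num
  rw [e2] at this
  exact this

theorem not_mono {D : Set (List Bool)} {b : ℕ → Bool} (hD : {n | pre b n ∈ D}.Infinite) :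
    ¬ StrictlyMonotone (F D) := by
  have hex : ∀ m : ℕ, ∃ k, m < k ∧ pre b k ∈ D := by
    intro m
    obtain ⟨k, hk, hk2⟩ := hD.exists_gt m
    exact ⟨k, hk2, hk⟩
  choose nn hn1 hn2 using hex
  set u : ℕ → List Bool := fun m => pre b (nn m) with hu
  set g : ℕ → CC := fun m => cc m • e (some (u m)) with hg
  have hgn : ∀ m, ‖g m‖ ≤ cc m := by
    intro m
    rw [hg]
    simp only
    rw [norm_smul, Real.norm_of_nonneg (cc_pos m).le]
    have := e_norm_le (u m)
    have := cc_pos m
    nlinarith
  have hgs : Summable g := Summable.of_norm_bounded cc_sum.summable hgn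
  set x1 : CC := ∑' m, g m with hx1
  have hx1s : HasSum g x1 := hgs.hasSum
  have happ : ∀ t, HasSum (fun m => (cc m * wu (u m) t) • d (code (some (u m)))) (x1 t) := by
    intro t
    have := ContinuousMap.hasSum_apply hx1s t
    refine this.congr_fun ?_ |> fun h => h
    intro m
    rw [hg]
    simp only
    rw [ContinuousMap.smul_apply, e_apply, smul_smul]
    rfl
  have hx1pos : ∀ t, 0 ≤ x1 t := by
    intro t
    rw [← (happ t).tsum_eq]
    exact tsum_nonneg (fun m => smul_d_nonneg (mul_nonneg (cc_pos m).le (wu_pos _ _).le) _)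
  have hx1mem : x1 ∈ (F D).1 := by
    rw [hx1]
    refine tsum_mem (F D).2.1 (fun m => ?_)
    exact Submodule.smul_mem _ _ (V_le_F D (Submodule.subset_span ⟨some (u m),
      some_mem.mpr (hn2 m), rfl⟩))
  have hymem : e none ∈ (F D).1 :=
    V_le_F D (Submodule.subset_span ⟨none, none_mem D, rfl⟩)
  intro hmono
  have hy0 : ∀ t, 0 ≤ e none t := fun t => by
    rw [e_apply]; exact smul_d_nonneg (w_nonneg _ _) _
  have hypos : 0 < e none := by
    refine lt_of_le_of_ne (fun t => hy0 t) ?_
    intro h
    have h2 : e none (fun _ => true) = 0 := by rw [← h]; rfl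
    rw [e_apply] at h2
    rcases smul_eq_zero.mp h2 with h3 | h3
    · have h5 : 0 < w0 (fun _ => true) := w0_pos (t := fun _ => true) (i := 0) rfl
      have h6 : w0 (fun _ => true) = 0 := h3
      linarith
    · have := d_norm (code none)
      rw [h3, norm_zero] at this
      exact absurd this (by norm_num)
  have hle : e none ≤ e none + x1 := by
    intro t
    show e none t ≤ e none t + x1 t
    exact le_add_of_nonneg_right (hx1pos t)
  have key := hmono (e none + x1) (Submodule.add_mem _ hymem hx1mem) (e none) hymem hypos hle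
  rw [add_sub_cancel_left] at key
  -- upper bound
  have hup : ‖e none + x1‖ ≤ 4 := by
    rw [ContinuousMap.norm_le _ (by norm_num)]
    intro t
    have h1 : (e none + x1) t = e none t + x1 t := rfl
    rw [h1]
    have hs : Summable (fun m => cc m * wu (u m) t) :=
      Summable.of_nonneg_of_le (fun m => mul_nonneg (cc_pos m).le (wu_pos _ _).le)
        (fun m => mul_le_of_le_one_right (cc_pos m).le (wu_le_one _ _)) cc_sum.summable
    have h2 : ‖x1 t‖ ≤ ∑' m, cc m * wu (u m) t := by
      rw [← (happ t).tsum_eq]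
      refine tsum_of_norm_bounded hs.hasSum (fun m => ?_)
      rw [norm_smul, d_norm, mul_one, Real.norm_of_nonneg
        (mul_nonneg (cc_pos m).le (wu_pos _ _).le)]
    have h3 : ‖e none t‖ = w0 t := by
      rw [e_apply, norm_smul, d_norm, mul_one, Real.norm_of_nonneg (w_nonneg _ _)]
      rfl
    have h4 : ‖e none t + x1 t‖ ≤ w0 t + ∑' m, cc m * wu (u m) t :=
      (norm_add_le _ _).trans (by rw [h3]; linarith)
    refine h4.trans ?_
    have hs' : Summable (fun m => cc m * (1 - wu (u m) t)) := by
      have := cc_sum.summable.sub hs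
      refine this.congr ?_
      intro m; ring
    have hnn : ∀ m, 0 ≤ cc m * (1 - wu (u m) t) := fun m =>
      mul_nonneg (cc_pos m).le (by linarith [wu_le_one (u m) t])
    have h5 : ∑' m, cc m * wu (u m) t = 4 - ∑' m, cc m * (1 - wu (u m) t) := by
      have e1 := hs.tsum_add hs'
      have e2 : ∑' m, (cc m * wu (u m) t + cc m * (1 - wu (u m) t)) = 4 := by
        rw [← cc_sum.tsum_eq]
        refine tsum_congr (fun m => ?_)
        ring
      rw [e2] at e1
      linarith
    rw [h5]
    by_cases h6 : ∃ i, t (2*i) = true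
    · classical
      set i := Nat.find h6 with hi
      have h7 : t (2*i) = true := Nat.find_spec h6
      have h8 : ∀ j < i, t (2*j) = false := fun j hj => by
        have := Nat.find_min h6 hj
        simpa using this
      have h9 := w0_le h8
      have h10 : ¬ inU (u i) t := by
        intro h
        have := (h i (by rw [hu]; simp only; rw [pre_length]; exact hn1 i)).1
        rw [h7] at this
        exact absurd this (by simp)
      have h11 := hs'.le_tsum i (fun j _ => hnn j)
      rw [wu_not h10] at h11
      have h12 : cc i * (1 - 1/2) = (1/2:ℝ)^i := by unfold cc; ring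
      rw [h12] at h11
      linarith
    · push Not at h6
      have h7 : w0 t = 0 := w0_zero (fun i => by simpa using h6 i)
      have h8 : 0 ≤ ∑' m, cc m * (1 - wu (u m) t) := tsum_nonneg hnn
      rw [h7]; linarith
  -- lower bound
  set t0 : Delta := fun m => if m % 2 = 0 then false else b (m / 2) with ht0
  have hin : ∀ m, inU (u m) t0 := by
    intro m i hi
    refine ⟨?_, ?_⟩
    · rw [ht0]; simp
    · have e3 : (u m)[i] = b i := pre_get b (nn m) i hi
      rw [e3, ht0]
      have e1 : (2*i+1) % 2 ≠ 0 := by omega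
      have e2 : (2*i+1)/2 = i := by omega
      simp only [if_neg e1, e2]
  have hlow : 4 ≤ ‖x1‖ := by
    refine le_trans ?_ (ContinuousMap.norm_coe_le_norm x1 t0)
    refine le_trans ?_ (J_le (x1 t0))
    have h1 := (happ t0).mapL JL
    have h2 : (fun m => JL ((cc m * wu (u m) t0) • d (code (some (u m))))) = cc := by
      funext m
      rw [map_smul, JL_eq, J_d, wu_mem (hin m)]
      simp
    rw [h2, JL_eq] at h1
    rw [h1.unique cc_sum]
  linarith

theorem mono_iff (D : Set (List Bool)) :
    StrictlyMonotone (F D) ↔ ¬ ∃ b : ℕ → Bool, {n | pre b n ∈ D}.Infinite := by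
  constructor
  · rintro h ⟨b, hb⟩
    exact not_mono hb h
  · exact mono_of

end Pool.Agent.Q211.BL
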