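import Pool.Agent.Q211.BL.Cont

/-!
# Every analytic set of a zero-dimensional space reduces to trees with a branch met infinitely
often
-/

open Topology

namespace Pool.Agent.Q211.BL

/-- Points of the Cantor set with infinitely many ones. -/
def Inf (t : ℕ → Bool) : Prop := {n | t n = true}.Infinite

/-- The sequence of gaps. -/
noncomputable def gap (t : ℕ → Bool) (k : ℕ) : ℕ :=
  Nat.nth (fun n => t n = true) (k+1) - Nat.nth (fun n => t n = true) k - 1

theorem gap_surj (z : ℕ → ℕ) : ∃ t, Inf t ∧ gap t = z := by
  classical
  set s : ℕ → ℕ := fun k => ∑ i ∈ Finset.range k, (z i + 1) with hs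
  have hsucc : ∀ k, s (k+1) = s k + (z k + 1) := fun k => by
    rw [hs]; simp only; rw [Finset.sum_range_succ]
  have hmono : StrictMono s := strictMono_nat_of_lt_succ (fun k => by rw [hsucc]; omega)
  set t : ℕ → Bool := fun n => decide (n ∈ Set.range s) with ht
  have hset : {n | t n = true} = Set.range s := by
    ext n; simp [ht]
  have hinf : {n | t n = true}.Infinite := by
    rw [hset]; exact Set.infinite_range_of_injective hmono.injective
  refine ⟨t, hinf, ?_⟩
  have hnth : Nat.nth (fun n => t n = true) = s := by
    have h1 : StrictMono (Nat.nth (fun n => t n = true)) := Nat.nth_strictMono hinf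
    refine (h1.range_inj hmono).mp ?_
    rw [Nat.range_nth_of_infinite hinf]
    exact hset
  funext k
  unfold gap
  rw [hnth, hsucc]
  omega

theorem nth_congr {t t' : ℕ → Bool} (ht : Inf t) {j M : ℕ}
    (hM : Nat.nth (fun n => t n = true) j < M) (h : ∀ n < M, t' n = t n) :
    Nat.nth (fun n => t' n = true) j = Nat.nth (fun n => t n = true) j := by
  set a := Nat.nth (fun n => t n = true) j with ha
  have h1 : t a = true := Nat.nth_mem_of_infinite ht j
  have h2 : t' a = true := by rw [h a hM, h1]
  have h3 : Nat.count (fun n => t n = true) a = j := Nat.count_nth_of_infinite ht j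
  have h4 : Nat.count (fun n => t' n = true) a = Nat.count (fun n => t n = true) a := by
    rw [Nat.count_eq_card_filter_range, Nat.count_eq_card_filter_range]
    congr 1
    refine Finset.filter_congr (fun n hn => ?_)
    rw [h n (lt_trans (Finset.mem_range.mp hn) hM)]
  have h5 := Nat.nth_count (p := fun n => t' n = true) h2
  rw [h4, h3] at h5
  exact h5

theorem gap_congr {t t' : ℕ → Bool} (ht : Inf t) {k M : ℕ}
    (hM : Nat.nth (fun n => t n = true) (k+1) < M) (h : ∀ n < M, t' n = t n) :
    gap t' k = gap t k := by
  have h1 : Nat.nth (fun n => t n = true) k < M :=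
    lt_trans (Nat.nth_strictMono ht (Nat.lt_succ_self k)) hM
  unfold gap
  rw [nth_congr ht hM h, nth_congr ht h1 h]

theorem pre_eq {b t : ℕ → Bool} {n : ℕ} (h : pre b n = pre t n) : ∀ i < n, b i = t i := by
  intro i hi
  have h1 : i < (pre b n).length := by rw [pre_length]; exact hi
  have h2 : i < (pre t n).length := by rw [pre_length]; exact hi
  rw [← pre_get b n i h1, ← pre_get t n i h2]
  exact List.getElem_of_eq h h1

theorem reduction {Y : Type} [TopologicalSpace Y] [PolishSpace Y]
    (hY : TopologicalSpace.IsTopologicalBasis {s : Set Y | IsClopen s}) (B : Set Y)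
    (hB : MeasureTheory.AnalyticSet Bᶜ) :
    ∃ g : Y → Set (List Bool), (∀ u, IsClopen {y | u ∈ g y}) ∧
      ∀ y, (∃ b : ℕ → Bool, {n | pre b n ∈ g y}.Infinite) ↔ y ∉ B := by
  rw [MeasureTheory.AnalyticSet] at hB
  rcases hB with hB | ⟨h, hcont, hrange⟩
  · refine ⟨fun _ => ∅, fun u => isClopen_empty, fun y => ?_⟩
    have : y ∈ B := by
      by_contra hy
      have : y ∈ Bᶜ := hy
      rw [hB] at this
      exact this
    simp [this]
  · obtain ⟨S, hS1, hS2, hS3⟩ := hY.exists_countable
    have hSne : S.Nonempty := by
      obtain ⟨s, hs, -⟩ := hS3.exists_subset_of_mem_open (Set.mem_univ (h (fun _ => 0))) isOpen_univ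
      exact ⟨s, hs⟩
    obtain ⟨Vb, hV⟩ := hS2.exists_eq_range hSne
    have hVc : ∀ i, IsClopen (Vb i) := fun i => hS1 (by rw [hV]; exact ⟨i, rfl⟩)
    have hsep : ∀ x y : Y, x ≠ y → ∃ i, x ∈ Vb i ∧ y ∉ Vb i := by
      intro x y hxy
      have hop : IsOpen ({y}ᶜ : Set Y) := isOpen_compl_singleton
      obtain ⟨s, hs, hxs, hsub⟩ := hS3.exists_subset_of_mem_open (show x ∈ ({y}ᶜ : Set Y) from hxy)
        hop
      rw [hV] at hs
      obtain ⟨i, rfl⟩ := hs
      exact ⟨i, hxs, fun hy => hsub hy rfl⟩
    set g : Y → Set (List Bool) := fun y => {u | ∃ t : ℕ → Bool, Inf t ∧ ∃ n, u = pre t (n+1) ∧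
      t n = true ∧ ∀ i ≤ n, (h (gap t) ∈ Vb i ↔ y ∈ Vb i)} with hg
    refine ⟨g, ?_, ?_⟩
    · intro u
      classical
      set π : Y → (Fin u.length → Bool) := fun y i => decide (y ∈ Vb i.1) with hπ
      have hπc : Continuous π := by
        refine continuous_pi (fun i => ?_)
        rw [continuous_discrete_rng]
        intro b
        cases b with
        | true =>
          have : (fun y => decide (y ∈ Vb i.1)) ⁻¹' {true} = Vb i.1 := by
            ext y; simp
          rw [this]; exact (hVc i.1).isOpen
        | false =>
          have : (fun y => decide (y ∈ Vb i.1)) ⁻¹' {false} = (Vb i.1)ᶜ := by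
            ext y; simp
          rw [this]; exact (hVc i.1).compl.isOpen
      have heq : {y | u ∈ g y} = π ⁻¹' {q | ∃ t : ℕ → Bool, Inf t ∧ ∃ n, u = pre t (n+1) ∧
          t n = true ∧ ∀ i : Fin u.length, (h (gap t) ∈ Vb i.1 ↔ q i = true)} := by
        ext y
        simp only [hg, Set.mem_setOf_eq, Set.mem_preimage]
        constructor
        · rintro ⟨t, ht, n, hu, htn, hi⟩
          refine ⟨t, ht, n, hu, htn, fun i => ?_⟩
          have hl2 : u.length = n + 1 := by rw [hu, pre_length]
          have hlen : i.1 ≤ n := by
            have := i.2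
            omega
          rw [hi i.1 hlen, hπ]
          simp
        · rintro ⟨t, ht, n, hu, htn, hi⟩
          refine ⟨t, ht, n, hu, htn, fun i hin => ?_⟩
          have hlen : i < u.length := by rw [hu, pre_length]; omega
          rw [hi ⟨i, hlen⟩, hπ]
          simp
      rw [heq]
      exact (isClopen_discrete _).preimage hπc
    · intro y
      constructor
      · rintro ⟨b, hb⟩
        have hex : ∀ m : ℕ, ∃ k, m < k ∧ pre b k ∈ g y := by
          intro m
          obtain ⟨k, hk, hk2⟩ := hb.exists_gt m
          exact ⟨k, hk2, hk⟩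
        choose nn hn1 hn2 using hex
        simp only [hg, Set.mem_setOf_eq] at hn2
        choose tt ht n hu htn hi using hn2
        have hlen : ∀ m, nn m = n m + 1 := by
          intro m
          have := congrArg List.length (hu m)
          rw [pre_length, pre_length] at this
          exact this
        have hagree : ∀ m, ∀ i ≤ n m, b i = tt m i := by
          intro m i hin
          have h1 := hu m
          rw [hlen m] at h1
          exact pre_eq h1 i (by omega)
        have hbinf : Inf b := by
          refine Set.infinite_of_not_bddAbove ?_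
          rintro ⟨M, hM⟩
          have h1 := hn1 (M+1)
          rw [hlen] at h1
          have h2 : b (n (M+1)) = true := by rw [hagree _ _ le_rfl]; exact htn _
          have h3 := hM h2
          omega
        have hlim : Filter.Tendsto (fun m => gap (tt m)) Filter.atTop (𝓝 (gap b)) := by
          rw [tendsto_pi_nhds]
          intro k
          refine tendsto_const_nhds.congr' ?_
          filter_upwards [Filter.eventually_ge_atTop (Nat.nth (fun n => b n = true) (k+1) + 1)]
            with m hm
          refine (gap_congr hbinf (M := n m + 1) ?_ ?_).symm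
          · have h1 := hn1 m
            rw [hlen m] at h1
            omega
          · intro i hin
            exact (hagree m i (by omega)).symm
        have hlim2 := (hcont.tendsto (gap b)).comp hlim
        have hyb : h (gap b) = y := by
          by_contra hne
          obtain ⟨i, hi1, hi2⟩ := hsep _ _ hne
          have h1 := hlim2.eventually ((hVc i).isOpen.mem_nhds hi1)
          obtain ⟨m, hm1, hm2⟩ := (h1.and (Filter.eventually_ge_atTop i)).exists
          have h2 := hn1 m
          rw [hlen m] at h2
          exact hi2 ((hi m i (by omega)).mp hm1)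
        have : y ∈ Bᶜ := by rw [← hrange, ← hyb]; exact ⟨_, rfl⟩
        exact this
      · intro hy
        have : y ∈ Bᶜ := hy
        rw [← hrange] at this
        obtain ⟨z, hz⟩ := this
        obtain ⟨t, ht, htz⟩ := gap_surj z
        refine ⟨t, ?_⟩
        refine Set.infinite_of_not_bddAbove ?_
        rintro ⟨M, hM⟩
        obtain ⟨k, hk, hk2⟩ := ht.exists_gt M
        have h1 : k + 1 ∈ {n | pre t n ∈ g y} := by
          refine ⟨t, ht, k, rfl, hk, fun i _ => ?_⟩
          rw [htz, hz]
        have := hM h1
        omega

end Pool.Agent.Q211.BL
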